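import Pool.Agent.Lib.MP_f3c5e4_al.Depth

section

set_option autoImplicit false

namespace Pool.Agent.Lib.MP_f3c5e4_al

open LaurentPolynomial Polynomial

noncomputable section

lemma nilp_bound {A : Type} [CommRing A] [Algebra (ZMod 2) A] [Finite A] {y : A}
    (hy : IsNilpotent y) {K : ℕ} (hK : Nat.card A ≤ 2 ^ K) : y ^ K = 0 := by
  classical
  have hfin : Module.Finite (ZMod 2) A := Module.Finite.of_finite
  have hcard : Nat.card A = 2 ^ Module.finrank (ZMod 2) A := by
    rw [Module.natCard_eq_pow_finrank (K := ZMod 2), Nat.card_zmod]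
  have hle : Module.finrank (ZMod 2) A ≤ K := by
    rw [hcard] at hK
    exact (Nat.pow_le_pow_iff_right (by norm_num)).1 hK
  have h1 : IsNilpotent (LinearMap.mulLeft (ZMod 2) y) := by
    obtain ⟨n, hn⟩ := hy
    refine ⟨n, ?_⟩
    rw [LinearMap.pow_mulLeft, hn]
    simp
  have h2 : (LinearMap.mulLeft (ZMod 2) y).charpoly = X ^ Module.finrank (ZMod 2) A :=
    IsNilpotent.charpoly_eq_X_pow_finrank h1
  have h3 := LinearMap.aeval_self_charpoly (LinearMap.mulLeft (ZMod 2) y)
  rw [h2] at h3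
  simp only [map_pow, aeval_X] at h3
  rw [LinearMap.pow_mulLeft] at h3
  have h4 : y ^ Module.finrank (ZMod 2) A = 0 := by
    have := congrArg (fun f : A →ₗ[ZMod 2] A => f 1) h3
    simpa using this
  exact pow_eq_zero_of_le hle h4

/-- The exponents `m < 2 ^ J` dividing some `2 ^ k - 1` with `1 ≤ k ≤ 2 J`. -/
def MM (J : ℕ) : Finset ℕ :=
  (Finset.range (2 ^ J)).filter (fun m => m ≠ 0 ∧ ∃ k ∈ Finset.Icc 1 (2 * J), m ∣ 2 ^ k - 1)

lemma key_nilp {A : Type} [CommRing A] [Algebra (ZMod 2) A] [Finite A] (x : Aˣ) (J : ℕ)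
    (h : Nat.card A * orderOf x ≤ 4 ^ J) :
    (∏ m ∈ MM J, ((x : A) ^ m - 1)) ^ (2 * J) = 0 := by
  classical
  have hordpos : 0 < orderOf x := orderOf_pos x
  have hcardA : Nat.card A ≤ 4 ^ J := le_trans (Nat.le_mul_of_pos_right _ hordpos) h
  apply nilp_bound _ (K := 2 * J)
  · rw [pow_mul]; exact hcardA
  rw [nilpotent_iff_mem_prime]
  intro P hP
  have hmax : P.IsMaximal := Ideal.IsPrime.isMaximal' hP
  let : Field (A ⧸ P) := Ideal.Quotient.field P
  have : Finite (A ⧸ P) := Finite.of_surjective _ (Ideal.Quotient.mk_surjective (I := P))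
  have hfin : Module.Finite (ZMod 2) (A ⧸ P) := Module.Finite.of_finite
  set k := Module.finrank (ZMod 2) (A ⧸ P) with hk
  have hcard : Nat.card (A ⧸ P) = 2 ^ k := by
    rw [Module.natCard_eq_pow_finrank (K := ZMod 2), Nat.card_zmod]
  have hcardle : Nat.card (A ⧸ P) ≤ Nat.card A :=
    Nat.card_le_card_of_surjective _ (Ideal.Quotient.mk_surjective (I := P))
  have hk1 : 1 ≤ k := by
    by_contra hlt
    have : k = 0 := by omega
    rw [this, pow_zero] at hcard
    have := Nat.card_eq_one_iff_unique.1 hcard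
    exact not_subsingleton (A ⧸ P) this.1
  have hk2 : k ≤ 2 * J := by
    have : 2 ^ k ≤ 2 ^ (2 * J) := by
      rw [← hcard, pow_mul]
      exact hcardle.trans hcardA
    exact (Nat.pow_le_pow_iff_right (by norm_num)).1 this
  set z : (A ⧸ P)ˣ := Units.map (Ideal.Quotient.mk P).toMonoidHom x with hz
  set m := orderOf z with hm
  have hm1 : m ∣ 2 ^ k - 1 := by
    rw [hm, ← hcard, ← Nat.card_units]
    exact orderOf_dvd_natCard z
  have hm0 : m ≠ 0 := (orderOf_pos z).ne'
  have hmx : m ≤ orderOf x := Nat.le_of_dvd hordpos (orderOf_map_dvd _ x)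
  have hmlt : m < 2 ^ k := by
    have h1 : 1 < 2 ^ k := Nat.one_lt_pow (by omega) (by norm_num)
    have h2 := Nat.le_of_dvd (by omega) hm1
    omega
  have hmJ : m < 2 ^ J := by
    have h1 : m * m < 2 ^ J * 2 ^ J := by
      calc m * m < 2 ^ k * m := Nat.mul_lt_mul_of_pos_right hmlt (by omega)
        _ ≤ Nat.card A * orderOf x := Nat.mul_le_mul (hcard ▸ hcardle) hmx
        _ ≤ 4 ^ J := h
        _ = 2 ^ J * 2 ^ J := by rw [← mul_pow]; norm_num
    exact lt_of_mul_self_lt_mul_self₀ (by positivity) h1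
  have hmem : m ∈ MM J := by
    simp only [MM, Finset.mem_filter, Finset.mem_range, Finset.mem_Icc]
    exact ⟨hmJ, hm0, k, ⟨hk1, hk2⟩, hm1⟩
  have hxm : (x : A) ^ m - 1 ∈ P := by
    rw [← Ideal.Quotient.eq_zero_iff_mem, map_sub, map_pow, map_one, sub_eq_zero]
    have h1 : z ^ m = 1 := pow_orderOf_eq_one z
    have h2 := congrArg (fun w : (A ⧸ P)ˣ => (w : A ⧸ P)) h1
    simpa [hz] using h2
  rw [← Finset.mul_prod_erase _ _ hmem]
  exact P.mul_mem_right _ hxm

/-- The unit `T`. -/
def Tu : Rˣ := ⟨T 1, T (-1), by rw [← T_add]; simp, by rw [← T_add]; simp⟩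

lemma Tu_zpow (n : ℤ) : ((Tu ^ n : Rˣ) : R) = T n := by
  have h : ∀ m : ℕ, ((Tu ^ m : Rˣ) : R) = T m := by
    intro m
    rw [Units.val_pow_eq_pow_val]
    show (T 1 : R) ^ m = T m
    rw [T_pow]; simp
  have h' : ∀ m : ℕ, (((Tu⁻¹) ^ m : Rˣ) : R) = T (-m) := by
    intro m
    rw [Units.val_pow_eq_pow_val]
    show (T (-1) : R) ^ m = T (-m)
    rw [T_pow]; simp
  obtain ⟨m, rfl | rfl⟩ := n.eq_nat_or_neg
  · rw [zpow_natCast, h]
  · rw [zpow_neg, zpow_natCast, ← inv_pow, h']

/-- The ideal attached to a normal subgroup. -/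
def idealOf (N : Subgroup Lamp) (hN : N.Normal) : Ideal R where
  carrier := {h | (⟨h, 0⟩ : Lamp) ∈ N}
  zero_mem' := N.one_mem
  add_mem' := by
    intro a b ha hb
    have : (⟨a + b, 0⟩ : Lamp) = ⟨a, 0⟩ * ⟨b, 0⟩ := by ext1 <;> simp
    show (⟨a + b, 0⟩ : Lamp) ∈ N
    rw [this]
    exact N.mul_mem ha hb
  smul_mem' := by
    intro r h hh
    have hT : ∀ n : ℤ, (⟨T n * h, 0⟩ : Lamp) ∈ N := by
      intro n
      have : (⟨T n * h, 0⟩ : Lamp) = ⟨0, n⟩ * ⟨h, 0⟩ * ⟨0, n⟩⁻¹ := by ext1 <;> simp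
      rw [this]
      exact hN.conj_mem _ hh _
    show (⟨r * h, 0⟩ : Lamp) ∈ N
    induction r using LaurentPolynomial.induction_on' with
    | add p q hp hq =>
      have : (⟨(p + q) * h, 0⟩ : Lamp) = ⟨p * h, 0⟩ * ⟨q * h, 0⟩ := by
        ext1 <;> simp [add_mul]
      rw [this]
      exact N.mul_mem hp hq
    | C_mul_T n a =>
      fin_cases a
      · have : (⟨LaurentPolynomial.C (0 : ZMod 2) * T n * h, 0⟩ : Lamp) = 1 := by ext1 <;> simp
        exact this ▸ N.one_mem
      · have : (⟨LaurentPolynomial.C (1 : ZMod 2) * T n * h, 0⟩ : Lamp) = ⟨T n * h, 0⟩ := by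
          ext1 <;> simp
        exact this ▸ hT n

lemma mem_idealOf {N : Subgroup Lamp} {hN : N.Normal} {h : R} :
    h ∈ idealOf N hN ↔ (⟨h, 0⟩ : Lamp) ∈ N := Iff.rfl

lemma finite_quot (N : Subgroup Lamp) (hN : N.Normal) (h0 : N.index ≠ 0) :
    Finite (R ⧸ idealOf N hN) := by
  have : N.FiniteIndex := ⟨h0⟩
  have : Finite (Lamp ⧸ N) := inferInstance
  apply Finite.of_injective (fun q : R ⧸ idealOf N hN => ((⟨q.out, 0⟩ : Lamp) : Lamp ⧸ N))
  intro q q' h
  simp only [QuotientGroup.eq] at h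
  have e : (⟨q.out, 0⟩ : Lamp)⁻¹ * ⟨q'.out, 0⟩ = ⟨q'.out - q.out, 0⟩ := by
    ext1
    · simp; ring
    · simp
  rw [e, ← mem_idealOf (hN := hN), ← Ideal.Quotient.eq_zero_iff_mem, map_sub, sub_eq_zero] at h
  have h1 : ∀ q : R ⧸ idealOf N hN, Ideal.Quotient.mk (idealOf N hN) q.out = q := fun q =>
    Quotient.out_eq q
  rw [h1, h1] at h
  exact h.symm

lemma card_mul_order_le (N : Subgroup Lamp) (hN : N.Normal) (h0 : N.index ≠ 0) :
    Nat.card (R ⧸ idealOf N hN) *
      orderOf (Units.map (Ideal.Quotient.mk (idealOf N hN)).toMonoidHom Tu) ≤ N.index := by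
  have : N.FiniteIndex := ⟨h0⟩
  have : Finite (Lamp ⧸ N) := inferInstance
  have := finite_quot N hN h0
  set I := idealOf N hN with hI
  set x := Units.map (Ideal.Quotient.mk I).toMonoidHom Tu with hx
  have hxpow : ∀ n : ℤ, ((x ^ n : (R ⧸ I)ˣ) : R ⧸ I) = Ideal.Quotient.mk I (T n) := by
    intro n
    rw [hx, ← map_zpow, Units.coe_map, Tu_zpow]
    rfl
  have h1 : ∀ q : R ⧸ I, Ideal.Quotient.mk I q.out = q := fun q => Quotient.out_eq q
  have hinj : Function.Injective (fun q : (R ⧸ I) × Fin (orderOf x) =>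
      ((⟨q.1.out, (q.2 : ℕ)⟩ : Lamp) : Lamp ⧸ N)) := by
    rintro ⟨r, j⟩ ⟨r', j'⟩ h
    simp only [QuotientGroup.eq] at h
    -- the difference
    set w : Lamp := (⟨r.out, (j : ℕ)⟩ : Lamp)⁻¹ * ⟨r'.out, (j' : ℕ)⟩ with hw
    have hwk : w.k = (j' : ℤ) - j := by simp [hw]; ring
    have hwf : w.f = T (-(j : ℤ)) * (r'.out - r.out) := by simp [hw]; ring
    -- commutator with `(1, 0)`
    have hc : w * ⟨1, 0⟩ * w⁻¹ * (⟨1, 0⟩ : Lamp)⁻¹ = ⟨T w.k - 1, 0⟩ := by
      ext1
      · simp only [mul_f, mul_k, inv_f, inv_k, add_zero, neg_zero, T_zero, mul_one]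
        have : T (R := ZMod 2) w.k * -(T (-w.k) * w.f) = - w.f := by
          rw [mul_neg, ← mul_assoc, ← T_add]; simp
        rw [this]
        simp
        ring
      · simp
    have hmem : (⟨T w.k - 1, 0⟩ : Lamp) ∈ N := by
      rw [← hc, mul_assoc, mul_assoc]
      apply N.mul_mem h
      rw [← mul_assoc]
      exact hN.conj_mem _ (N.inv_mem h) _
    rw [← mem_idealOf (hN := hN), ← hI, ← Ideal.Quotient.eq_zero_iff_mem, map_sub, map_one,
      sub_eq_zero, ← hxpow] at hmem
    have hone : x ^ w.k = 1 := Units.ext hmem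
    have hdvd : (orderOf x : ℤ) ∣ w.k := orderOf_dvd_iff_zpow_eq_one.2 hone
    have hjj : (j' : ℤ) - j = 0 := by
      rw [hwk] at hdvd
      apply Int.eq_zero_of_abs_lt_dvd hdvd
      have := j.2
      have := j'.2
      rw [abs_lt]
      constructor <;> omega
    have hj : j = j' := Fin.ext (by omega)
    subst hj
    have hw2 : w = ⟨T (-(j : ℤ)) * (r'.out - r.out), 0⟩ := Lamp.ext hwf (by rw [hwk]; ring)
    rw [hw2, ← mem_idealOf (hN := hN), ← hI] at h
    have h2 := I.mul_mem_left (T (j : ℤ)) h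
    rw [← mul_assoc, ← T_add, add_neg_cancel, T_zero, one_mul,
      ← Ideal.Quotient.eq_zero_iff_mem, map_sub, sub_eq_zero, h1, h1] at h2
    rw [h2]
  have := Nat.card_le_card_of_injective _ hinj
  rw [Nat.card_prod, Nat.card_eq_fintype_card (α := Fin (orderOf x)), Fintype.card_fin] at this
  exact this

/-- The polynomial killed by all small quotients. -/
def PP (J : ℕ) : (ZMod 2)[X] := (∏ m ∈ MM J, (X ^ m - 1)) ^ (2 * J)

lemma PP_ne (J : ℕ) : PP J ≠ 0 := by
  apply pow_ne_zero
  rw [Finset.prod_ne_zero_iff]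
  intro m hm
  simp only [MM, Finset.mem_filter] at hm
  exact Polynomial.X_pow_sub_C_ne_zero (Nat.pos_of_ne_zero hm.2.1) 1

lemma PP_mem (J : ℕ) (N : Subgroup Lamp) (hN : N.Normal) (h0 : N.index ≠ 0)
    (hle : N.index ≤ 4 ^ J) : (⟨toLaurent (PP J), 0⟩ : Lamp) ∈ N := by
  have := finite_quot N hN h0
  have h1 := key_nilp (Units.map (Ideal.Quotient.mk (idealOf N hN)).toMonoidHom Tu) J
    ((card_mul_order_le N hN h0).trans hle)
  rw [← mem_idealOf (hN := hN), ← Ideal.Quotient.eq_zero_iff_mem, ← h1, PP]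
  simp only [map_pow, map_prod, map_sub, map_one, Polynomial.toLaurent_X]
  rfl

end

end Pool.Agent.Lib.MP_f3c5e4_al
end

section

set_option autoImplicit false

namespace Pool.Agent.Lib.MP_f3c5e4_al

open LaurentPolynomial Polynomial

noncomputable section

/-- The classical divisor bound. -/
theorem divisor_bound (ε : ℝ) (hε : 0 < ε) :
    ∃ C : ℝ, 1 ≤ C ∧ ∀ n : ℕ, n ≠ 0 → (n.divisors.card : ℝ) ≤ C * (n : ℝ) ^ ε := by
  classical
  -- constants
  set B : ℝ := max 1 (1 / (ε * Real.log 2)) with hB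
  have hlog2 : 0 < Real.log 2 := Real.log_pos (by norm_num)
  have hB1 : 1 ≤ B := le_max_left _ _
  have hBv : ∀ v : ℕ, ((v : ℝ) + 1) ≤ B * (2 : ℝ) ^ (v * ε) := by
    intro v
    have h1 : 1 + (v : ℝ) * ε * Real.log 2 ≤ (2 : ℝ) ^ (v * ε) := by
      rw [Real.rpow_def_of_pos (by norm_num)]
      have := Real.add_one_le_exp (Real.log 2 * (v * ε))
      linarith
    have h2 : 1 ≤ B * (ε * Real.log 2) := by
      have : 1 / (ε * Real.log 2) ≤ B := le_max_right _ _
      rwa [div_le_iff₀ (by positivity)] at this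
    have hv : (0 : ℝ) ≤ v := by positivity
    calc (v : ℝ) + 1 ≤ v * (B * (ε * Real.log 2)) + B := by nlinarith
      _ = B * (1 + v * ε * Real.log 2) := by ring
      _ ≤ B * (2 : ℝ) ^ (v * ε) := by gcongr
  obtain ⟨P0, hP0⟩ : ∃ P0 : ℕ, ∀ p : ℕ, P0 ≤ p → (2 : ℝ) ≤ (p : ℝ) ^ ε := by
    have h := (tendsto_rpow_atTop hε).comp (tendsto_natCast_atTop_atTop (R := ℝ))
    have h2 := h.eventually_ge_atTop 2
    rw [Filter.eventually_atTop] at h2
    exact h2
  refine ⟨B ^ P0, one_le_pow₀ hB1, ?_⟩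
  intro n hn
  rw [Nat.card_divisors hn]
  push_cast
  have hnprod : (n : ℝ) ^ ε = ∏ p ∈ n.primeFactors, ((p : ℝ) ^ (n.factorization p * ε)) := by
    have h1 : (n : ℝ) = ∏ p ∈ n.primeFactors, (p : ℝ) ^ (n.factorization p) := by
      conv_lhs => rw [← Nat.prod_factorization_pow_eq_self hn]
      rw [Finsupp.prod, Nat.support_factorization]
      push_cast
      rfl
    calc (n : ℝ) ^ ε = (∏ p ∈ n.primeFactors, (p : ℝ) ^ (n.factorization p)) ^ ε := by rw [← h1]
      _ = ∏ p ∈ n.primeFactors, ((p : ℝ) ^ (n.factorization p)) ^ ε :=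
          (Real.finsetProd_rpow _ _ (fun p _ => by positivity) _).symm
      _ = _ := by
          apply Finset.prod_congr rfl
          intro p _
          rw [← Real.rpow_natCast, ← Real.rpow_mul (by positivity)]
  have hstep : ∏ p ∈ n.primeFactors, ((n.factorization p : ℝ) + 1) ≤
      ∏ p ∈ n.primeFactors, ((if p < P0 then B else 1) * (p : ℝ) ^ (n.factorization p * ε)) := by
    apply Finset.prod_le_prod
    · intro p _; positivity
    · intro p hp
      have hp2 : (2 : ℝ) ≤ p := by exact_mod_cast (Nat.prime_of_mem_primeFactors hp).two_le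
      split_ifs with h
      · refine (hBv _).trans ?_
        gcongr
      · push Not at h
        rw [one_mul, mul_comm, Real.rpow_mul (by positivity)]
        have h3 : ((2 : ℝ)) ^ (n.factorization p : ℝ) ≤
            ((p : ℝ) ^ ε) ^ (n.factorization p : ℝ) :=
          Real.rpow_le_rpow (by norm_num) (hP0 p h) (by positivity)
        refine le_trans ?_ h3
        rw [Real.rpow_natCast]
        have := Nat.lt_two_pow_self (n := n.factorization p)
        exact_mod_cast this
  refine hstep.trans ?_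
  rw [Finset.prod_mul_distrib, ← hnprod]
  apply mul_le_mul_of_nonneg_right _ (by positivity)
  rw [Finset.prod_ite]
  simp only [Finset.prod_const, one_pow, mul_one]
  apply pow_le_pow_right₀ hB1
  calc _ ≤ (Finset.range P0).card := by
        apply Finset.card_le_card
        intro p hp
        simp only [Finset.mem_filter, Finset.mem_range] at hp ⊢
        exact hp.2
    _ = P0 := Finset.card_range _

lemma card_MM_le (ε : ℝ) (C : ℝ) (hε : 0 < ε) (hC1 : 1 ≤ C)
    (hC : ∀ n : ℕ, n ≠ 0 → (n.divisors.card : ℝ) ≤ C * (n : ℝ) ^ ε) (J : ℕ) :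
    ((MM J).card : ℝ) ≤ 2 * J * (C * ((4 : ℝ) ^ J) ^ ε) := by
  classical
  have hsub : MM J ⊆ (Finset.Icc 1 (2 * J)).biUnion (fun k => (2 ^ k - 1).divisors) := by
    intro m hm
    simp only [MM, Finset.mem_filter, Finset.mem_range, Finset.mem_Icc] at hm
    obtain ⟨_, _, k, hk, hmk⟩ := hm
    rw [Finset.mem_biUnion]
    refine ⟨k, Finset.mem_Icc.2 hk, Nat.mem_divisors.2 ⟨hmk, ?_⟩⟩
    have : 1 < 2 ^ k := Nat.one_lt_pow (by omega) (by norm_num)
    omega
  have h1 : ((MM J).card : ℝ) ≤ ∑ k ∈ Finset.Icc 1 (2 * J), ((2 ^ k - 1).divisors.card : ℝ) := by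
    exact_mod_cast (Finset.card_le_card hsub).trans Finset.card_biUnion_le
  refine h1.trans ?_
  have h2 : ∀ k ∈ Finset.Icc 1 (2 * J), ((2 ^ k - 1).divisors.card : ℝ) ≤
      C * ((4 : ℝ) ^ J) ^ ε := by
    intro k hk
    rw [Finset.mem_Icc] at hk
    have h3 : 1 < 2 ^ k := Nat.one_lt_pow (by omega) (by norm_num)
    refine (hC _ (by omega)).trans ?_
    have h4 : ((2 ^ k - 1 : ℕ) : ℝ) ≤ (4 : ℝ) ^ J := by
      have : 2 ^ k - 1 ≤ 4 ^ J := by
        have h5 : 2 ^ k ≤ 2 ^ (2 * J) := Nat.pow_le_pow_right (by norm_num) hk.2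
        rw [pow_mul] at h5
        norm_num at h5
        omega
      exact_mod_cast this
    gcongr
  refine (Finset.sum_le_card_nsmul _ _ _ h2).trans ?_
  rw [Nat.card_Icc, nsmul_eq_mul]
  push_cast
  simp

lemma natDegree_PP_le (J : ℕ) : (PP J).natDegree ≤ 2 * J * ((MM J).card * 2 ^ J) := by
  rw [PP]
  refine (Polynomial.natDegree_pow_le).trans (Nat.mul_le_mul_left _ ?_)
  refine (Polynomial.natDegree_prod_le _ _).trans ?_
  refine (Finset.sum_le_card_nsmul _ _ (2 ^ J) ?_).trans (by simp)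
  intro m hm
  simp only [MM, Finset.mem_filter, Finset.mem_range] at hm
  have : (X ^ m - 1 : (ZMod 2)[X]).natDegree ≤ m := by
    refine (Polynomial.natDegree_sub_le _ _).trans ?_
    simp
  have h2 : m ≤ 2 ^ J := hm.1.le
  exact this.trans h2

/-- There are finite sets of large primes with `∏ (1 - 1 / p) ≤ 1 / 2`. -/
lemma exists_primes (T : ℕ) : ∃ s : Finset ℕ, (∀ p ∈ s, p.Prime ∧ T ≤ p) ∧
    ∏ p ∈ s, (1 - ((p : ℚ))⁻¹) ≤ 1 / 2 := by
  classical
  obtain ⟨s, hs, hs2⟩ : ∃ s : Finset ℕ, (∀ p ∈ s, p.Prime ∧ T ≤ p) ∧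
      1 ≤ ∑ p ∈ s, (1 / (p : ℝ)) := by
    by_contra hcon
    push Not at hcon
    apply not_summable_one_div_on_primes
    apply summable_of_sum_le (c := T + 1)
    · intro n
      apply Set.indicator_nonneg
      intro n _
      positivity
    · intro u
      have h1 : ∑ n ∈ u, Set.indicator {p : ℕ | p.Prime} (fun n : ℕ => (1 : ℝ) / n) n ≤
          ∑ n ∈ u, ((if n < T then 1 else 0) + (if n.Prime ∧ T ≤ n then 1 / (n : ℝ) else 0)) := by
        apply Finset.sum_le_sum
        intro n _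
        by_cases hn : n.Prime
        · rw [Set.indicator_of_mem (by exact hn)]
          rcases lt_or_ge n T with h | h
          · rw [if_pos h, if_neg (by omega)]
            have : (1 : ℝ) ≤ n := by exact_mod_cast hn.one_le
            rw [add_zero, div_le_one (by positivity)]
            exact this
          · rw [if_neg (by omega), if_pos ⟨hn, h⟩, zero_add]
        · rw [Set.indicator_of_notMem (by exact hn)]
          positivity
      refine h1.trans ?_
      rw [Finset.sum_add_distrib]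
      apply add_le_add
      · rw [← Finset.sum_filter, Finset.sum_const, nsmul_eq_mul, mul_one]
        have : (u.filter (fun n => n < T)).card ≤ (Finset.range T).card := by
          apply Finset.card_le_card
          intro n hn
          simp only [Finset.mem_filter, Finset.mem_range] at hn ⊢
          exact hn.2
        rw [Finset.card_range] at this
        exact_mod_cast this
      · rw [← Finset.sum_filter]
        apply (hcon (u.filter (fun n => n.Prime ∧ T ≤ n)) _).le
        intro p hp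
        exact (Finset.mem_filter.1 hp).2
  refine ⟨s, hs, ?_⟩
  have h1 : ∏ p ∈ s, (1 - ((p : ℝ))⁻¹) ≤ 1 / 2 := by
    calc ∏ p ∈ s, (1 - ((p : ℝ))⁻¹) ≤ ∏ p ∈ s, Real.exp (-((p : ℝ))⁻¹) := by
          apply Finset.prod_le_prod
          · intro p hp
            have : (1 : ℝ) ≤ p := by exact_mod_cast (hs p hp).1.one_le
            have := inv_le_one_of_one_le₀ this
            linarith
          · intro p hp
            have := Real.add_one_le_exp (-((p : ℝ))⁻¹)
            linarith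
      _ = Real.exp (-∑ p ∈ s, ((p : ℝ))⁻¹) := by
          rw [← Real.exp_sum, Finset.sum_neg_distrib]
      _ ≤ Real.exp (-1) := by
          apply Real.exp_le_exp.2
          simp only [one_div] at hs2
          linarith
      _ ≤ 1 / 2 := by
          rw [Real.exp_neg, ← one_div]
          apply one_div_le_one_div_of_le (by norm_num)
          have := Real.exp_one_gt_d9
          linarith
  have h2 : ((∏ p ∈ s, (1 - ((p : ℚ))⁻¹) : ℚ) : ℝ) ≤ ((1 / 2 : ℚ) : ℝ) := by
    push_cast
    exact h1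
  exact_mod_cast h2

lemma count_coprime (P M : ℕ) :
    ((Finset.range (P * M)).filter (fun i => P.Coprime i)).card = M * P.totient := by
  induction M with
  | zero => simp
  | succ M ih =>
    have h1 : Finset.range (P * (M + 1)) =
        Finset.range (P * M) ∪ Finset.Ico (P * M) (P * M + P) := by
      ext i
      simp only [Finset.mem_range, Finset.mem_union, Finset.mem_Ico, mul_add, mul_one]
      omega
    rw [h1, Finset.filter_union, Finset.card_union_of_disjoint, ih,
      Nat.filter_coprime_Ico_eq_totient]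
    · ring
    · apply Finset.disjoint_filter_filter
      rw [Finset.disjoint_left]
      intro i hi hi'
      simp only [Finset.mem_range, Finset.mem_Ico] at hi hi'
      omega

/-- In a cyclic group whose order is divisible by many primes `≥ T`, at least half of the elements
have order at most `|G| / T`. -/
lemma small_orders {G : Type} [Group G] [Fintype G] [IsCyclic G] (T : ℕ) (s : Finset ℕ)
    (hs : ∀ p ∈ s, p.Prime ∧ T ≤ p) (hs2 : ∏ p ∈ s, (1 - ((p : ℚ))⁻¹) ≤ 1 / 2)
    (hdvd : ∀ p ∈ s, p ∣ Fintype.card G) :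
    ∃ A : Finset G, Fintype.card G ≤ 2 * A.card ∧ ∀ a ∈ A, orderOf a * T ≤ Fintype.card G := by
  classical
  set N := Fintype.card G with hN
  have hNpos : 0 < N := Fintype.card_pos
  set P := ∏ p ∈ s, p with hP
  have hPN : P ∣ N := Finset.prod_primes_dvd N (fun p hp => (hs p hp).1.prime) hdvd
  obtain ⟨M, hM⟩ := hPN
  have hPpos : 0 < P := Nat.pos_of_ne_zero (by rintro h; rw [h, zero_mul] at hM; omega)
  have htot : 2 * P.totient ≤ P := by
    have h1 := Nat.totient_eq_mul_prod_factors P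
    rw [hP, Nat.primeFactors_prod (fun p hp => (hs p hp).1), ← hP] at h1
    have h2 : (2 * P.totient : ℚ) ≤ P := by
      rw [h1]
      have : (0 : ℚ) ≤ P := by positivity
      nlinarith
    exact_mod_cast h2
  obtain ⟨γ, hγ⟩ := IsCyclic.exists_generator (α := G)
  have hordγ : orderOf γ = N := by
    rw [orderOf_eq_card_of_forall_mem_zpowers hγ, Nat.card_eq_fintype_card]
  set A := (Finset.univ : Finset G).filter (fun a => ∃ p ∈ s, orderOf a ∣ N / p) with hA
  refine ⟨A, ?_, ?_⟩
  · have h1 : (Finset.univ : Finset G) ⊆ A ∪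
        ((Finset.range (P * M)).filter (fun i => P.Coprime i)).image (fun i => γ ^ i) := by
      intro a _
      have ha := hγ a
      rw [← mem_powers_iff_mem_zpowers, mem_powers_iff_mem_range_orderOf] at ha
      obtain ⟨i, hi, rfl⟩ := Finset.mem_image.1 ha
      rw [Finset.mem_range, hordγ] at hi
      rw [Finset.mem_union]
      by_cases hco : P.Coprime i
      · right
        rw [Finset.mem_image]
        exact ⟨i, Finset.mem_filter.2 ⟨Finset.mem_range.2 (hM ▸ hi), hco⟩, rfl⟩
      · left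
        rw [Nat.Prime.not_coprime_iff_dvd] at hco
        obtain ⟨p, hp, hpP, hpi⟩ := hco
        obtain ⟨q, hq, hpq⟩ := (hp.prime.dvd_finsetProd_iff _).1 hpP
        have hpq' : p = q := (Nat.prime_dvd_prime_iff_eq hp (hs q hq).1).1 hpq
        subst hpq'
        rw [hA, Finset.mem_filter]
        refine ⟨Finset.mem_univ _, p, hq, ?_⟩
        rw [orderOf_dvd_iff_pow_eq_one, ← pow_mul]
        obtain ⟨j, rfl⟩ := hpi
        have h3 : p * j * (N / p) = N * j := by
          rw [mul_comm p j, mul_assoc, Nat.mul_div_cancel' (hdvd p hq), mul_comm]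
        rw [h3, pow_mul, ← hordγ, pow_orderOf_eq_one, one_pow]
    have h2 := (Finset.card_le_card h1).trans (Finset.card_union_le _ _)
    have h3 : (((Finset.range (P * M)).filter (fun i => P.Coprime i)).image
        (fun i => γ ^ i)).card ≤ M * P.totient := by
      refine Finset.card_image_le.trans ?_
      rw [count_coprime]
    rw [Finset.card_univ, ← hN] at h2
    have h4 : 2 * (M * P.totient) ≤ N := by
      rw [hM]; nlinarith
    omega
  · intro a ha
    rw [hA, Finset.mem_filter] at ha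
    obtain ⟨_, p, hp, hdvd2⟩ := ha
    have hp' := hs p hp
    have h1 : orderOf a ≤ N / p := Nat.le_of_dvd
      (Nat.div_pos (Nat.le_of_dvd hNpos (hdvd p hp)) hp'.1.pos) hdvd2
    calc orderOf a * T ≤ (N / p) * p := Nat.mul_le_mul h1 hp'.2
      _ ≤ N := Nat.div_mul_le_self N p

lemma dvd_two_pow_sub_one {p k : ℕ} (hp : p.Prime) (hp2 : p ≠ 2) (hk : p - 1 ∣ k) :
    p ∣ 2 ^ k - 1 := by
  obtain ⟨j, rfl⟩ := hk
  have hco : Nat.Coprime 2 p := (Nat.coprime_primes Nat.prime_two hp).2 (Ne.symm hp2)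
  have h1 : 2 ^ (p - 1) ≡ 1 [MOD p] := by
    have := Nat.ModEq.pow_totient hco
    rwa [Nat.totient_prime hp] at this
  have h2 : 2 ^ ((p - 1) * j) ≡ 1 [MOD p] := by
    rw [pow_mul]
    simpa using h1.pow j
  exact (Nat.modEq_iff_dvd' Nat.one_le_two_pow).1 h2.symm

/-- For every `T` there are arbitrarily large `k` such that half of the units of `GF(2^k)` have
order at most `2 ^ k / T`. -/
theorem exists_field (T m : ℕ) : ∃ k, m ≤ k ∧ k ≠ 0 ∧ ∃ A : Finset (GaloisField 2 k)ˣ,
    2 ^ k - 1 ≤ 2 * A.card ∧ ∀ a ∈ A, orderOf a * T ≤ 2 ^ k := by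
  classical
  obtain ⟨s, hs, hs2⟩ := exists_primes (T + 3)
  set k0 := ∏ p ∈ s, (p - 1) with hk0
  have hk0pos : 0 < k0 := by
    apply Finset.prod_pos
    intro p hp
    have := (hs p hp).2
    omega
  set k := k0 * (m + 1) with hk
  have hkpos : k ≠ 0 := by positivity
  refine ⟨k, by nlinarith, hkpos, ?_⟩
  have : Fintype (GaloisField 2 k)ˣ := Fintype.ofFinite _
  have hcard : Fintype.card (GaloisField 2 k)ˣ = 2 ^ k - 1 := by
    rw [← Nat.card_eq_fintype_card, Nat.card_units, GaloisField.card 2 k hkpos]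
  obtain ⟨A, hA1, hA2⟩ := small_orders (G := (GaloisField 2 k)ˣ) T s
    (fun p hp => ⟨(hs p hp).1, by have := (hs p hp).2; omega⟩) hs2 (by
      intro p hp
      rw [hcard]
      apply dvd_two_pow_sub_one (hs p hp).1 (by have := (hs p hp).2; omega)
      exact (Finset.dvd_prod_of_mem _ hp).trans (dvd_mul_right _ _))
  rw [hcard] at hA1 hA2
  exact ⟨A, hA1, fun a ha => (hA2 a ha).trans (Nat.sub_le _ _)⟩

end

end Pool.Agent.Lib.MP_f3c5e4_al
end
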