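import Pool.Agent.Lib.MP_f3c5e4_al.Lamp

set_option autoImplicit false

namespace Pool.Agent.Lib.MP_f3c5e4_al

open LaurentPolynomial Polynomial

noncomputable section

/-- The depth `D(g)`: least index of a normal subgroup of finite index not containing `g`. -/
def depth {G : Type} [Group G] (g : G) : ℕ :=
  sInf {k : ℕ | ∃ N : Subgroup G, N.Normal ∧ N.index ≠ 0 ∧ g ∉ N ∧ N.index = k}

lemma depth_le {G : Type} [Group G] {g : G} (N : Subgroup G) (hN : N.Normal)
    (h0 : N.index ≠ 0) (hg : g ∉ N) {k : ℕ} (hk : N.index ≤ k) : depth g ≤ k := by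
  have h : N.index ∈ {k : ℕ | ∃ N : Subgroup G, N.Normal ∧ N.index ≠ 0 ∧ g ∉ N ∧ N.index = k} :=
    ⟨N, hN, h0, hg, rfl⟩
  exact (Nat.sInf_le h).trans hk

lemma le_depth {G : Type} [Group G] {g : G}
    (hne : ∃ N : Subgroup G, N.Normal ∧ N.index ≠ 0 ∧ g ∉ N) {k : ℕ}
    (h : ∀ N : Subgroup G, N.Normal → N.index ≠ 0 → g ∉ N → k ≤ N.index) : k ≤ depth g := by
  obtain ⟨N, h1, h2, h3⟩ := hne
  have hne' : {k : ℕ | ∃ N : Subgroup G, N.Normal ∧ N.index ≠ 0 ∧ g ∉ N ∧ N.index = k}.Nonempty :=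
    ⟨N.index, N, h1, h2, h3, rfl⟩
  obtain ⟨N', h1', h2', h3', h4'⟩ := Nat.sInf_mem hne'
  have := h N' h1' h2' h3'
  rw [h4'] at this
  exact this

lemma index_le {G : Type} [Group G] (N : Subgroup G) {α : Type} [Finite α] (φ : G → α)
    (h : ∀ x y, φ x = φ y → x⁻¹ * y ∈ N) : N.index ≠ 0 ∧ N.index ≤ Nat.card α := by
  have hinj : Function.Injective (fun q : G ⧸ N => φ q.out) := by
    intro q q' hq
    have := h _ _ hq
    rw [← QuotientGroup.eq] at this
    simpa using this
  have hfin : Finite (G ⧸ N) := Finite.of_injective _ hinj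
  refine ⟨?_, ?_⟩
  · rw [Subgroup.index]
    exact Nat.card_pos.ne'
  · rw [Subgroup.index]
    exact Nat.card_le_card_of_injective _ hinj

/-- The normal subgroup of elements with walker position divisible by `m`. -/
def posSub (m : ℕ) : Subgroup Lamp where
  carrier := {g | (m : ℤ) ∣ g.k}
  one_mem' := by simp
  mul_mem' := by
    intro a b ha hb
    exact dvd_add ha hb
  inv_mem' := by
    intro a ha
    simpa using ha

lemma posSub_normal (m : ℕ) : (posSub m).Normal := ⟨by
  intro n hn g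
  show (m : ℤ) ∣ g.k + n.k + -g.k
  have : (m : ℤ) ∣ n.k := hn
  simpa using this⟩

lemma posSub_index (m : ℕ) (hm : 0 < m) : (posSub m).index ≠ 0 ∧ (posSub m).index ≤ m := by
  have : NeZero m := ⟨hm.ne'⟩
  have h := index_le (posSub m) (α := ZMod m) (fun g => (g.k : ZMod m)) (by
    intro x y h
    show (m : ℤ) ∣ -x.k + y.k
    have := (ZMod.intCast_eq_intCast_iff_dvd_sub _ _ _).1 h
    rwa [sub_eq_neg_add] at this)
  rwa [Nat.card_zmod] at h

lemma depth_of_k_ne {g : Lamp} (hg : g.k ≠ 0) {n : ℕ} (hn : |g.k| ≤ n) : depth g ≤ n + 1 := by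
  refine depth_le (posSub (n + 1)) (posSub_normal _) (posSub_index _ (by omega)).1 ?_
    (posSub_index _ (by omega)).2
  intro h
  have h1 : ((n + 1 : ℕ) : ℤ) ∣ g.k := h
  have h2 := Int.le_of_dvd (abs_pos.2 hg) ((dvd_abs _ _).2 h1)
  push_cast at h2
  omega

section field

variable {F : Type} [Field F] [Finite F] [Algebra (ZMod 2) F]

/-- evaluation at a unit -/
def ev (a : Fˣ) : R →+* F := LaurentPolynomial.eval₂ (algebraMap (ZMod 2) F) a

/-- The kernel of the action on `F` through the unit `a`. -/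
def evSub (a : Fˣ) : Subgroup Lamp where
  carrier := {g | ev a g.f = 0 ∧ a ^ g.k = 1}
  one_mem' := by simp
  mul_mem' := by
    rintro g h ⟨h1, h2⟩ ⟨h1', h2'⟩
    refine ⟨by simp [h1, h1'], by simp [zpow_add, h2, h2']⟩
  inv_mem' := by
    rintro g ⟨h1, h2⟩
    refine ⟨by simp [h1], by simp [h2]⟩

omit [Finite F] in
lemma evSub_normal (a : Fˣ) : (evSub a).Normal := ⟨by
  rintro n ⟨h1, h2⟩ g
  have e : (g * n * g⁻¹).f = g.f + T g.k * n.f - T n.k * g.f := by
    simp only [mul_f, mul_k, inv_f]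
    have : T (R := ZMod 2) (g.k + n.k) * -(T (-g.k) * g.f) = -(T n.k * g.f) := by
      rw [mul_neg, ← mul_assoc, ← T_add]
      congr 3
      ring
    rw [this]; ring
  refine ⟨?_, ?_⟩
  · rw [e]
    have hT : ev a (T n.k) = 1 := by
      rw [ev, LaurentPolynomial.eval₂_T, h2]; simp
    simp [h1, hT]
  · simp only [mul_k, inv_k]
    have : g.k + n.k + -g.k = n.k := by ring
    rw [this, h2]⟩

lemma evSub_index (a : Fˣ) :
    (evSub a).index ≠ 0 ∧ (evSub a).index ≤ Nat.card F * orderOf a := by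
  have : Finite Fˣ := inferInstance
  have h := index_le (evSub a) (α := F × Subgroup.zpowers a)
    (fun g => (ev a g.f, ⟨a ^ g.k, Subgroup.zpow_mem_zpowers a g.k⟩)) (by
    intro x y h
    simp only [Prod.mk.injEq, Subtype.mk.injEq] at h
    refine ⟨?_, ?_⟩
    · simp only [mul_f, inv_f, inv_k, map_add, map_neg, map_mul, h.1]
      ring
    · simp only [mul_k, inv_k]
      rw [zpow_add, zpow_neg, h.2]
      simp)
  rwa [Nat.card_prod, Nat.card_zpowers] at h

omit [Finite F] in
lemma exists_ev_ne {g : Lamp} {n : ℕ} (hg : Bd n g) (h0 : g.f ≠ 0) (A : Finset Fˣ)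
    (hA : 2 * n < A.card) : ∃ a ∈ A, ev a g.f ≠ 0 := by
  classical
  by_contra hcon
  push Not at hcon
  obtain ⟨⟨p, hp, hp'⟩, _⟩ := hg
  have hp0 : p ≠ 0 := by
    intro h
    rw [h, map_zero] at hp'
    have h1 : g.f * T n * T (-n) = 0 := by rw [← hp', zero_mul]
    rw [mul_assoc, ← T_add] at h1
    simp at h1
    exact h0 h1
  have hinj : Function.Injective (algebraMap (ZMod 2) F) := (algebraMap (ZMod 2) F).injective
  have h1 : p.map (algebraMap (ZMod 2) F) = 0 := by
    apply Polynomial.eq_zero_of_natDegree_lt_card_of_eval_eq_zero' _ (A.image (fun a : Fˣ => (a : F)))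
    · intro x hx
      obtain ⟨a, ha, rfl⟩ := Finset.mem_image.1 hx
      rw [Polynomial.eval_map, ← LaurentPolynomial.eval₂_toLaurent, hp', map_mul]
      have := hcon a ha
      rw [ev] at this
      rw [this, zero_mul]
    · rw [Finset.card_image_of_injective _ Units.val_injective]
      exact lt_of_le_of_lt (Polynomial.natDegree_map_le.trans hp) hA
  exact hp0 ((Polynomial.map_eq_zero_iff hinj).1 h1)

lemma depth_lamp_le {g : Lamp} {n : ℕ} (hg : Bd n g) (h1 : g ≠ 1) (A : Finset Fˣ)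
    (hA : 2 * n < A.card) (B : ℕ) (hB : ∀ a ∈ A, orderOf a ≤ B) :
    depth g ≤ max (n + 1) (Nat.card F * B) := by
  by_cases hk : g.k = 0
  · have hf : g.f ≠ 0 := by
      intro hf
      exact h1 (Lamp.ext hf hk)
    obtain ⟨a, ha, ha'⟩ := exists_ev_ne hg hf A hA
    refine (depth_le (evSub a) (evSub_normal a) (evSub_index a).1 ?_
      ((evSub_index a).2.trans (Nat.mul_le_mul_left _ (hB a ha)))).trans (le_max_right _ _)
    intro h
    exact ha' h.1
  · exact (depth_of_k_ne hk hg.2).trans (le_max_left _ _)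

end field

end

end Pool.Agent.Lib.MP_f3c5e4_al
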