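import Mathlib

set_option autoImplicit false

namespace Pool.Agent.Lib.MP_f3c5e4_al

open LaurentPolynomial Polynomial

noncomputable section

/-- The ring of Laurent polynomials over the field with two elements. -/
abbrev R : Type := LaurentPolynomial (ZMod 2)

/-- The lamplighter group: pairs `(f, k)` with `(f, k) (g, l) = (f + T ^ k g, k + l)`. -/
@[ext]
structure Lamp where
  f : R
  k : ℤ

instance : Mul Lamp := ⟨fun g h => ⟨g.f + T g.k * h.f, g.k + h.k⟩⟩
instance : One Lamp := ⟨⟨0, 0⟩⟩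
instance : Inv Lamp := ⟨fun g => ⟨-(T (-g.k) * g.f), -g.k⟩⟩

@[simp] lemma mul_f (g h : Lamp) : (g * h).f = g.f + T g.k * h.f := rfl
@[simp] lemma mul_k (g h : Lamp) : (g * h).k = g.k + h.k := rfl
@[simp] lemma one_f : (1 : Lamp).f = 0 := rfl
@[simp] lemma one_k : (1 : Lamp).k = 0 := rfl
@[simp] lemma inv_f (g : Lamp) : g⁻¹.f = -(T (-g.k) * g.f) := rfl
@[simp] lemma inv_k (g : Lamp) : g⁻¹.k = -g.k := rfl

instance : Group Lamp := Group.ofLeftAxioms
  (by
    intro a b c
    ext1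
    · simp only [mul_f, mul_k, T_add]
      ring
    · simp [add_assoc])
  (by
    intro a
    ext1
    · simp
    · simp)
  (by
    intro a
    ext1
    · simp
    · simp)

/-- the lamp generator -/
def dl : Lamp := ⟨1, 0⟩
/-- the walker generator -/
def tl : Lamp := ⟨0, 1⟩

lemma tl_zpow (n : ℤ) : tl ^ n = ⟨0, n⟩ := by
  have h : ∀ m : ℕ, tl ^ m = ⟨0, m⟩ := by
    intro m
    induction m with
    | zero => rfl
    | succ m ih =>
      rw [pow_succ, ih]
      ext1
      · simp [tl]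
      · simp [tl]
  obtain ⟨m, rfl | rfl⟩ := n.eq_nat_or_neg
  · rw [zpow_natCast, h]
  · rw [zpow_neg, zpow_natCast, h]
    ext1 <;> simp

/-- `Bd n g`: the lamps are supported in `[-n, n]` and the walker is in `[-n, n]`. -/
def Bd (n : ℕ) (g : Lamp) : Prop :=
  (∃ p : (ZMod 2)[X], p.natDegree ≤ 2 * n ∧ toLaurent p = g.f * T n) ∧ |g.k| ≤ n

lemma Bd.mono {m n : ℕ} (hmn : m ≤ n) {g : Lamp} (h : Bd m g) : Bd n g := by
  obtain ⟨⟨p, hp, hp'⟩, h2⟩ := h
  refine ⟨⟨p * X ^ (n - m), ?_, ?_⟩, h2.trans (by exact_mod_cast hmn)⟩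
  · refine (Polynomial.natDegree_mul_le).trans ?_
    rw [Polynomial.natDegree_X_pow]
    omega
  · rw [map_mul, hp', Polynomial.toLaurent_X_pow, mul_assoc, ← T_add]
    congr 2
    omega

lemma exists_Bd (g : Lamp) : ∃ n, Bd n g := by
  obtain ⟨n, p, hp⟩ := exists_T_pow g.f
  refine ⟨n + p.natDegree + g.k.natAbs, ⟨p * X ^ (p.natDegree + g.k.natAbs), ?_, ?_⟩, ?_⟩
  · refine (Polynomial.natDegree_mul_le).trans ?_
    rw [Polynomial.natDegree_X_pow]
    omega
  · rw [map_mul, hp, Polynomial.toLaurent_X_pow, mul_assoc, ← T_add]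
    congr 2
    push_cast
    ring
  · rw [Int.abs_eq_natAbs]
    push_cast
    omega

lemma Bd.mul {m n : ℕ} {g h : Lamp} (hg : Bd m g) (hh : Bd n h) : Bd (m + n) (g * h) := by
  obtain ⟨⟨p, hp, hp'⟩, h2⟩ := hg
  obtain ⟨⟨q, hq, hq'⟩, h2'⟩ := hh
  have hk : 0 ≤ g.k + m := by
    have := (abs_le.1 h2).1
    linarith
  have hk2 : g.k + m ≤ 2 * m := by
    have := (abs_le.1 h2).2
    linarith
  refine ⟨⟨p * X ^ n + q * X ^ (g.k + m).toNat, ?_, ?_⟩, ?_⟩
  · refine (Polynomial.natDegree_add_le _ _).trans (max_le ?_ ?_)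
    · refine (Polynomial.natDegree_mul_le).trans ?_
      rw [Polynomial.natDegree_X_pow]
      omega
    · refine (Polynomial.natDegree_mul_le).trans ?_
      rw [Polynomial.natDegree_X_pow]
      omega
  · rw [map_add, map_mul, map_mul, hp', hq', Polynomial.toLaurent_X_pow,
      Polynomial.toLaurent_X_pow, Int.toNat_of_nonneg hk]
    push_cast
    rw [mul_f, T_add, T_add]
    ring
  · rw [mul_k]
    push_cast
    exact (abs_add_le _ _).trans (add_le_add h2 h2')

lemma Bd_one (n : ℕ) : Bd n 1 := ⟨⟨0, by simp, by simp⟩, by simp⟩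

/-- The ball of radius `n` for the generating set `S`. -/
def ball {G : Type} [Group G] (S : Finset G) (n : ℕ) : Set G :=
  {g : G | ∃ l : List G, l.length ≤ n ∧ (∀ x ∈ l, x ∈ S ∨ x⁻¹ ∈ S) ∧ l.prod = g}

section ball

variable {G : Type} [Group G]

lemma ball_mono (S : Finset G) {m n : ℕ} (h : m ≤ n) : ball S m ⊆ ball S n := by
  rintro g ⟨l, h1, h2, h3⟩
  exact ⟨l, h1.trans h, h2, h3⟩

lemma one_mem_ball (S : Finset G) (n : ℕ) : (1 : G) ∈ ball S n :=
  ⟨[], by simp, by simp, by simp⟩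

lemma mul_mem_ball (S : Finset G) {m n : ℕ} {g h : G} (hg : g ∈ ball S m) (hh : h ∈ ball S n) :
    g * h ∈ ball S (m + n) := by
  obtain ⟨l, h1, h2, h3⟩ := hg
  obtain ⟨l', h1', h2', h3'⟩ := hh
  refine ⟨l ++ l', by simpa using add_le_add h1 h1', ?_, by simp [h3, h3']⟩
  intro x hx
  rcases List.mem_append.1 hx with h | h
  · exact h2 x h
  · exact h2' x h

lemma inv_mem_ball (S : Finset G) {m : ℕ} {g : G} (hg : g ∈ ball S m) :
    g⁻¹ ∈ ball S m := by
  obtain ⟨l, h1, h2, h3⟩ := hg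
  refine ⟨(l.map (fun x => x⁻¹)).reverse, by simpa using h1, ?_, ?_⟩
  · intro x hx
    simp only [List.mem_reverse, List.mem_map] at hx
    obtain ⟨y, hy, rfl⟩ := hx
    rcases h2 y hy with h | h
    · right; simpa using h
    · left; exact h
  · rw [← h3, List.prod_inv_reverse]

lemma exists_mem_ball (S : Finset G) (hS : Subgroup.closure (S : Set G) = ⊤) (g : G) :
    ∃ n, g ∈ ball S n := by
  have hg : g ∈ Subgroup.closure (S : Set G) := by rw [hS]; trivial
  induction hg using Subgroup.closure_induction with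
  | mem x hx => exact ⟨1, [x], by simp, by intro y hy; simp at hy; subst hy; left; exact hx, by simp⟩
  | one => exact ⟨0, one_mem_ball S 0⟩
  | mul x y _ _ hx hy =>
    obtain ⟨m, hm⟩ := hx
    obtain ⟨n, hn⟩ := hy
    exact ⟨m + n, mul_mem_ball S hm hn⟩
  | inv x _ hx =>
    obtain ⟨m, hm⟩ := hx
    exact ⟨m, inv_mem_ball S hm⟩

end ball

/-- linear bound for the support -/
lemma exists_E (S : Finset Lamp) : ∃ E : ℕ, 0 < E ∧ ∀ n, ∀ g ∈ ball S n, Bd (E * n) g := by
  classical
  choose b hb using exists_Bd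
  set E := S.sum (fun s => b s + b s⁻¹) with hE
  have hs : ∀ s : Lamp, (s ∈ S ∨ s⁻¹ ∈ S) → Bd E s := by
    have h1 : ∀ s ∈ S, b s + b s⁻¹ ≤ E := fun s hs =>
      Finset.single_le_sum (f := fun s => b s + b s⁻¹) (fun _ _ => Nat.zero_le _) hs
    intro s hs
    rcases hs with hs | hs
    · exact (hb s).mono (by have := h1 s hs; omega)
    · have := h1 _ hs
      rw [inv_inv] at this
      exact (hb s).mono (by omega)
  refine ⟨E + 1, by omega, ?_⟩
  rintro n g ⟨l, hl, hlS, rfl⟩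
  have : Bd (E * l.length) l.prod := by
    clear hl
    induction l with
    | nil => simpa using Bd_one 0
    | cons a l ih =>
      have ih' := ih (fun x hx => hlS x (by simp [hx]))
      have ha := hs a (hlS a (by simp))
      rw [List.prod_cons, List.length_cons, mul_add, mul_one, add_comm]
      exact ha.mul ih'
  exact this.mono (Nat.mul_le_mul (by omega) hl)

lemma lamp_short (S : Finset Lamp) (c : ℕ) (hd : dl ∈ ball S c) (ht : tl ∈ ball S c) :
    ∀ (n : ℕ) (p : (ZMod 2)[X]), p.natDegree ≤ n →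
      (⟨toLaurent p, 0⟩ : Lamp) ∈ ball S (c * (3 * n + 1)) := by
  have hC : ∀ a : ZMod 2, (⟨toLaurent (Polynomial.C a), 0⟩ : Lamp) ∈ ball S c := by
    intro a
    fin_cases a
    · have : (⟨toLaurent (Polynomial.C 0), 0⟩ : Lamp) = 1 := by
        ext1 <;> simp
      show (⟨toLaurent (Polynomial.C 0), 0⟩ : Lamp) ∈ ball S c
      rw [this]; exact one_mem_ball S c
    · have : (⟨toLaurent (Polynomial.C 1), 0⟩ : Lamp) = dl := by
        ext1 <;> simp [dl]
      show (⟨toLaurent (Polynomial.C 1), 0⟩ : Lamp) ∈ ball S c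
      rw [this]; exact hd
  intro n
  induction n with
  | zero =>
    intro p hp
    rw [Polynomial.eq_C_of_natDegree_le_zero hp]
    simpa using hC _
  | succ n ih =>
    intro p hp
    have h1 := ih p.divX (by rw [Polynomial.natDegree_divX_eq_natDegree_tsub_one]; omega)
    have h2 := hC (p.coeff 0)
    have e : (⟨toLaurent p, 0⟩ : Lamp) =
        ⟨toLaurent (Polynomial.C (p.coeff 0)), 0⟩ * (tl * ⟨toLaurent p.divX, 0⟩ * tl⁻¹) := by
      ext1
      · conv_lhs => rw [← Polynomial.divX_mul_X_add p]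
        simp [tl]
        ring
      · simp [tl]
    rw [e]
    have h3 := mul_mem_ball S h2 (mul_mem_ball S (mul_mem_ball S ht h1) (inv_mem_ball S ht))
    refine ball_mono S ?_ h3
    ring_nf
    omega

end

end Pool.Agent.Lib.MP_f3c5e4_al
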