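import Pool.Agent.Lib.MP_f3c5e4_al.Arith

set_option autoImplicit false

namespace Pool.Agent.Lib.MP_f3c5e4_al

open LaurentPolynomial Polynomial Filter Topology

open scoped commutatorElement

noncomputable section

/-- The residual finiteness growth function: the largest depth of a nontrivial element of word
length at most `n`. -/
def rfGrowth {G : Type} [Group G] (S : Finset G) (n : ℕ) : ℕ :=
  sSup {d : ℕ | ∃ g ∈ ball S n, g ≠ 1 ∧ depth g = d}

/-- `f ⪯ h`: there is `C > 0` with `f n ≤ C * h (C * n)` for all `n`. -/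
def Dominated (f h : ℕ → ℝ) : Prop := ∃ C : ℕ, 0 < C ∧ ∀ n : ℕ, f n ≤ C * h (C * n)

lemma uniform_bound {g : Lamp} {n : ℕ} (hg : Bd n g) (h1 : g ≠ 1) :
    (∃ N : Subgroup Lamp, N.Normal ∧ N.index ≠ 0 ∧ g ∉ N) ∧ depth g ≤ 4 * (2 * n + 1) ^ 2 := by
  classical
  set k := Nat.log 2 (2 * n + 1) + 1 with hk
  have hk0 : k ≠ 0 := by omega
  have h2 : 2 * n + 1 < 2 ^ k := Nat.lt_pow_succ_log_self (by norm_num) _
  have h3 : 2 ^ k ≤ 2 * (2 * n + 1) := by
    rw [hk, pow_succ, mul_comm]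
    exact Nat.mul_le_mul_left _ (Nat.pow_log_le_self 2 (by omega))
  have : Fintype (GaloisField 2 k)ˣ := Fintype.ofFinite _
  have hcard : Nat.card (GaloisField 2 k) = 2 ^ k := GaloisField.card 2 k hk0
  have hcard' : Fintype.card (GaloisField 2 k)ˣ = 2 ^ k - 1 := by
    rw [← Nat.card_eq_fintype_card, Nat.card_units, hcard]
  have hA : 2 * n < (Finset.univ : Finset (GaloisField 2 k)ˣ).card := by
    rw [Finset.card_univ, hcard']; omega
  constructor
  · by_cases hgk : g.k = 0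
    · have hf : g.f ≠ 0 := fun hf => h1 (Lamp.ext hf hgk)
      obtain ⟨a, _, ha'⟩ := exists_ev_ne hg hf _ hA
      exact ⟨evSub a, evSub_normal a, (evSub_index a).1, fun h => ha' h.1⟩
    · refine ⟨posSub (n + 1), posSub_normal _, (posSub_index _ (by omega)).1, ?_⟩
      intro h
      have h1 : ((n + 1 : ℕ) : ℤ) ∣ g.k := h
      have h2 := Int.le_of_dvd (abs_pos.2 hgk) ((dvd_abs _ _).2 h1)
      have := hg.2
      push_cast at h2
      omega
  · have hd := depth_lamp_le hg h1 _ hA (2 ^ k) (fun a _ => by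
      have h4 : orderOf a ≤ Nat.card (GaloisField 2 k)ˣ :=
        Nat.le_of_dvd Nat.card_pos (orderOf_dvd_natCard a)
      rw [Nat.card_eq_fintype_card, hcard'] at h4
      omega)
    rw [hcard] at hd
    refine hd.trans (max_le ?_ ?_)
    · nlinarith
    · calc 2 ^ k * 2 ^ k ≤ (2 * (2 * n + 1)) * (2 * (2 * n + 1)) := Nat.mul_le_mul h3 h3
        _ = 4 * (2 * n + 1) ^ 2 := by ring

theorem lamp_rf (g : Lamp) (hg : g ≠ 1) :
    ∃ N : Subgroup Lamp, N.Normal ∧ N.index ≠ 0 ∧ g ∉ N := by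
  obtain ⟨n, hn⟩ := exists_Bd g
  exact (uniform_bound hn hg).1

lemma rf_le {S : Finset Lamp} {n B : ℕ} (h : ∀ g ∈ ball S n, g ≠ 1 → depth g ≤ B) :
    rfGrowth S n ≤ B := by
  apply csSup_le'
  rintro d ⟨g, hg, hg1, rfl⟩
  exact h g hg hg1

lemma depth_le_rf (S : Finset Lamp) {n : ℕ} {g : Lamp} (hg : g ∈ ball S n) (h1 : g ≠ 1) :
    depth g ≤ rfGrowth S n := by
  obtain ⟨E, _, hE⟩ := exists_E S
  apply le_csSup
  · refine ⟨4 * (2 * (E * n) + 1) ^ 2, ?_⟩
    rintro d ⟨g, hg, hg1, rfl⟩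
    exact (uniform_bound (hE n g hg) hg1).2
  · exact ⟨g, hg, h1, rfl⟩

theorem poly_bound (S : Finset Lamp) : ∃ C : ℕ, 0 < C ∧ ∀ n, rfGrowth S n ≤ C * n ^ C := by
  obtain ⟨E, hE0, hE⟩ := exists_E S
  refine ⟨4 * (2 * E + 1) ^ 2, by positivity, ?_⟩
  intro n
  rcases Nat.eq_zero_or_pos n with rfl | hn
  · apply rf_le
    intro g hg h1
    exfalso
    obtain ⟨l, hl, _, rfl⟩ := hg
    have : l = [] := by simpa using hl
    subst this
    exact h1 rfl
  · have h1 : rfGrowth S n ≤ 4 * (2 * (E * n) + 1) ^ 2 :=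
      rf_le (fun g hg hg1 => (uniform_bound (hE n g hg) hg1).2)
    refine h1.trans ?_
    have h2 : 2 * (E * n) + 1 ≤ (2 * E + 1) * n := by nlinarith
    calc 4 * (2 * (E * n) + 1) ^ 2 ≤ 4 * ((2 * E + 1) * n) ^ 2 := by gcongr
      _ = 4 * (2 * E + 1) ^ 2 * n ^ 2 := by ring
      _ ≤ 4 * (2 * E + 1) ^ 2 * n ^ (4 * (2 * E + 1) ^ 2) := by
          apply Nat.mul_le_mul_left
          apply Nat.pow_le_pow_right hn
          nlinarith

theorem lamp_closure : Subgroup.closure ({dl, tl} : Set Lamp) = ⊤ := by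
  set K := Subgroup.closure ({dl, tl} : Set Lamp) with hK
  have hd : dl ∈ K := Subgroup.subset_closure (by simp)
  have ht : tl ∈ K := Subgroup.subset_closure (by simp)
  have hf : ∀ f : R, (⟨f, 0⟩ : Lamp) ∈ K := by
    intro f
    induction f using LaurentPolynomial.induction_on' with
    | add p q hp hq =>
      have : (⟨p + q, 0⟩ : Lamp) = ⟨p, 0⟩ * ⟨q, 0⟩ := by ext1 <;> simp
      rw [this]
      exact K.mul_mem hp hq
    | C_mul_T n a =>
      have h1 : (⟨LaurentPolynomial.C a * T n, 0⟩ : Lamp) =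
          tl ^ n * ⟨LaurentPolynomial.C a, 0⟩ * (tl ^ n)⁻¹ := by
        rw [tl_zpow]
        ext1
        · simp only [mul_f, mul_k, inv_f, zero_add, add_zero, mul_zero, neg_zero]
          exact mul_comm _ _
        · simp
      rw [h1]
      refine K.mul_mem (K.mul_mem (K.zpow_mem ht n) ?_) (K.inv_mem (K.zpow_mem ht n))
      fin_cases a
      · have : (⟨LaurentPolynomial.C (0 : ZMod 2), 0⟩ : Lamp) = 1 := by ext1 <;> simp
        exact this ▸ K.one_mem
      · have : (⟨LaurentPolynomial.C (1 : ZMod 2), 0⟩ : Lamp) = dl := by ext1 <;> simp [dl]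
        exact this ▸ hd
  rw [eq_top_iff]
  intro g _
  have : g = ⟨g.f, 0⟩ * tl ^ g.k := by
    rw [tl_zpow]
    ext1 <;> simp
  rw [this]
  exact K.mul_mem (hf _) (K.zpow_mem ht _)

theorem lamp_fg : Group.FG Lamp := by
  rw [Group.fg_iff]
  exact ⟨{dl, tl}, lamp_closure, by simp⟩

lemma comm_lamp (h : R) (m : ℤ) :
    ⁅(⟨h, 0⟩ : Lamp), (⟨0, m⟩ : Lamp)⁆ = ⟨h - T m * h, 0⟩ := by
  rw [commutatorElement_def]
  ext1
  · simp only [mul_f, mul_k, inv_f, inv_k, mul_zero, add_zero, zero_add, T_zero, one_mul, neg_zero]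
    ring
  · simp

theorem lamp_not_vnilp : ¬ ∃ K : Subgroup Lamp, K.index ≠ 0 ∧ Group.IsNilpotent K := by
  rintro ⟨K, hK, hnil⟩
  have : K.FiniteIndex := ⟨hK⟩
  have hfin : Finite (Lamp ⧸ K) := inferInstance
  -- two powers of the walker in the same coset
  obtain ⟨i, j, hij, hij'⟩ : ∃ i j : ℤ, i ≠ j ∧
      ((tl ^ i : Lamp) : Lamp ⧸ K) = ((tl ^ j : Lamp) : Lamp ⧸ K) :=
    Finite.exists_ne_map_eq_of_infinite _
  obtain ⟨a, b, hab, hab'⟩ : ∃ a b : ℤ, a ≠ b ∧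
      ((⟨T a, 0⟩ : Lamp) : Lamp ⧸ K) = ((⟨T b, 0⟩ : Lamp) : Lamp ⧸ K) :=
    Finite.exists_ne_map_eq_of_infinite _
  rw [QuotientGroup.eq] at hij' hab'
  set m : ℤ := j - i with hm
  have hm0 : m ≠ 0 := sub_ne_zero.2 (Ne.symm hij)
  have hw : (⟨0, m⟩ : Lamp) ∈ K := by
    have : (tl ^ i)⁻¹ * tl ^ j = (⟨0, m⟩ : Lamp) := by
      rw [tl_zpow, tl_zpow]
      ext1
      · simp
      · simp [hm]; ring
    rwa [this] at hij'
  set h0 : R := T b - T a with hh0
  have hh : (⟨h0, 0⟩ : Lamp) ∈ K := by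
    have : (⟨T a, 0⟩ : Lamp)⁻¹ * ⟨T b, 0⟩ = (⟨h0, 0⟩ : Lamp) := by
      ext1
      · simp [hh0]; ring
      · simp
    rwa [this] at hab'
  have hTne : ∀ a b : ℤ, a ≠ b → (T b - T a : R) ≠ 0 := by
    intro a b hab h
    rw [sub_eq_zero] at h
    have := congrArg (fun f : R => f.coeff b) h
    simp [hab] at this
  -- iterated commutators
  have key : ∀ c : ℕ, (⟨(T m - 1) ^ c * h0, 0⟩ : Lamp) ∈ K.lowerCentralSeries c := by
    intro c
    induction c with
    | zero => simpa using hh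
    | succ c ih =>
      have e : (⟨(T m - 1) ^ (c + 1) * h0, 0⟩ : Lamp) =
          (⁅(⟨(T m - 1) ^ c * h0, 0⟩ : Lamp), (⟨0, m⟩ : Lamp)⁆)⁻¹ := by
        rw [comm_lamp]
        ext1
        · simp only [inv_f, neg_zero, T_zero, one_mul]
          ring
        · simp
      rw [e, Subgroup.lowerCentralSeries_succ]
      exact Subgroup.inv_mem _ (Subgroup.commutator_mem_commutator ih hw)
  rw [Subgroup.isNilpotent_iff_lowerCentralSeries] at hnil
  obtain ⟨c, hc⟩ := hnil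
  have hlcs := key c
  rw [hc, Subgroup.mem_bot] at hlcs
  have h1 : (T m - 1) ^ c * h0 = 0 := congrArg Lamp.f hlcs
  have h2 : (T m - 1 : R) ≠ 0 := by
    have := hTne 0 m (Ne.symm hm0)
    simpa using this
  exact mul_ne_zero (pow_ne_zero c h2) (hTne a b hab) h1

/-- No power with exponent at least two is dominated by the growth. -/
theorem not_dominated_ge (S : Finset Lamp) (α : ℝ) (hα : 2 ≤ α) :
    ¬ Dominated (fun n => (n : ℝ) ^ α) (fun n => (rfGrowth S n : ℝ)) := by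
  rintro ⟨C, hC0, hC⟩
  obtain ⟨E, hE0, hE⟩ := exists_E S
  set T := 256 * E ^ 2 * C ^ 3 + 1 with hT
  obtain ⟨k, hk1, hk0, A, hA1, hA2⟩ := exists_field T (16 * E * C + T + 2)
  have hkpow : k < 2 ^ k := Nat.lt_two_pow_self
  have hcard : Nat.card (GaloisField 2 k) = 2 ^ k := GaloisField.card 2 k hk0
  set q := 8 * E * C with hq
  have hq0 : 0 < q := by positivity
  set n := 2 ^ k / q with hn
  have hn1 : q * n ≤ 2 ^ k := Nat.mul_div_le _ _
  have hn2 : 2 ^ k < q * (n + 1) := by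
    have := Nat.lt_mul_div_succ (2 ^ k) hq0
    simpa [hn] using this
  have hEC : 16 * E * C = 2 * q := by rw [hq]; ring
  have hn3 : 2 ^ k ≤ 2 * q * n := by
    have : 2 * q ≤ 2 ^ k := by omega
    nlinarith
  have hnpos : 1 ≤ n := by
    by_contra h
    have : n = 0 := Nat.lt_one_iff.1 (not_le.1 h)
    rw [this] at hn3
    simp at hn3
  have hqn : 8 * (E * (C * n)) = q * n := by rw [hq]; ring
  have hn3' : 2 ^ k ≤ 2 * (q * n) := by rw [← mul_assoc]; exact hn3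
  have hAcard : 2 * (E * (C * n)) < A.card := by omega
  have hbound : rfGrowth S (C * n) ≤ max (E * (C * n) + 1) (2 ^ k * (2 ^ k / T)) := by
    apply rf_le
    intro g hg h1
    have hd := depth_lamp_le (hE _ g hg) h1 A hAcard (2 ^ k / T) (fun a ha => by
      rw [Nat.le_div_iff_mul_le (by omega)]
      exact hA2 a ha)
    rwa [hcard] at hd
  have hTpos : (0 : ℝ) < T := by rw [hT]; positivity
  have hreal : (rfGrowth S (C * n) : ℝ) ≤ (2 ^ k : ℝ) * 2 ^ k / T := by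
    have h1 : (rfGrowth S (C * n) : ℝ) ≤ max ((E * (C * n) + 1 : ℕ) : ℝ)
        ((2 ^ k * (2 ^ k / T) : ℕ) : ℝ) := by
      rw [← Nat.cast_max]
      exact_mod_cast hbound
    refine h1.trans (max_le ?_ ?_)
    · rw [le_div_iff₀ hTpos]
      have h2 : (E * (C * n) + 1) * T ≤ 2 ^ k * 2 ^ k :=
        Nat.mul_le_mul (by omega) (by omega)
      exact_mod_cast h2
    · rw [le_div_iff₀ hTpos]
      have h2 : 2 ^ k * (2 ^ k / T) * T ≤ 2 ^ k * 2 ^ k := by
        rw [mul_assoc]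
        exact Nat.mul_le_mul_left _ (Nat.div_mul_le_self _ _)
      exact_mod_cast h2
  have h1 := hC n
  simp only at h1
  have h2 : (n : ℝ) ^ 2 ≤ (n : ℝ) ^ α := by
    rw [← Real.rpow_two]
    exact Real.rpow_le_rpow_of_exponent_le (by exact_mod_cast hnpos) hα
  have h3 : (n : ℝ) ^ 2 ≤ C * ((2 ^ k : ℝ) * 2 ^ k / T) := by
    refine (h2.trans h1).trans ?_
    gcongr
  have h4 : (2 ^ k : ℝ) ≤ 2 * q * n := by exact_mod_cast hn3
  have h5 : (2 ^ k : ℝ) * 2 ^ k ≤ (2 * q * n) * (2 * q * n) :=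
    mul_le_mul h4 h4 (by positivity) (by positivity)
  have h6 : (T : ℝ) * (n : ℝ) ^ 2 ≤ C * ((2 ^ k : ℝ) * 2 ^ k) := by
    have : C * ((2 ^ k : ℝ) * 2 ^ k / T) = (C * ((2 ^ k : ℝ) * 2 ^ k)) / T := by ring
    rw [this, le_div_iff₀ hTpos] at h3
    linarith
  have h7 : (T : ℝ) * (n : ℝ) ^ 2 ≤ (256 * E ^ 2 * C ^ 3) * (n : ℝ) ^ 2 := by
    refine h6.trans ?_
    have h8 : (C : ℝ) * ((2 ^ k : ℝ) * 2 ^ k) ≤ C * ((2 * q * n) * (2 * q * n)) := by gcongr
    refine h8.trans (le_of_eq ?_)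
    rw [hq]; push_cast; ring
  have h9 : (T : ℝ) ≤ 256 * E ^ 2 * C ^ 3 := le_of_mul_le_mul_right h7 (by positivity)
  rw [hT] at h9
  push_cast at h9
  linarith

/-- The growth is not dominated by a power with exponent smaller than two. -/
theorem not_dominated_lt (S : Finset Lamp) (hS : Subgroup.closure (S : Set Lamp) = ⊤) (α : ℝ)
    (hα0 : 0 < α) (hα : α < 2) :
    ¬ Dominated (fun n => (rfGrowth S n : ℝ)) (fun n => (n : ℝ) ^ α) := by
  rintro ⟨C, hC0, hC⟩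
  obtain ⟨c1, hc1⟩ := exists_mem_ball S hS dl
  obtain ⟨c2, hc2⟩ := exists_mem_ball S hS tl
  set c := c1 + c2 + 1 with hc
  have hd : dl ∈ ball S c := ball_mono S (by omega) hc1
  have ht : tl ∈ ball S c := ball_mono S (by omega) hc2
  set ε : ℝ := (1 / α - 1 / 2) / 2 with hε
  have hε0 : 0 < ε := by
    have : 1 / 2 < 1 / α := one_div_lt_one_div_of_lt hα0 hα
    rw [hε]; linarith
  obtain ⟨D, hD1, hD⟩ := divisor_bound ε hε0
  set δ : ℝ := 1 / 2 - α / 4 with hδ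
  have hδ0 : 0 < δ := by rw [hδ]; linarith
  have hexp : α * (ε + 1 / 2) = 1 - δ := by
    rw [hε, hδ]; field_simp; ring
  -- word length of the element attached to `PP J`
  have hlen : ∀ J : ℕ, 1 ≤ J → (((c * (3 * (PP J).natDegree + 1) : ℕ)) : ℝ) ≤
      13 * c * D * (J : ℝ) ^ 2 * (((4 : ℝ) ^ J) ^ (ε + 1 / 2)) := by
    intro J hJ
    have hJ1 : (1 : ℝ) ≤ J := by exact_mod_cast hJ
    have h4 : (1 : ℝ) ≤ 4 ^ J := one_le_pow₀ (by norm_num)
    have hhalf : ((4 : ℝ) ^ J) ^ (1 / 2 : ℝ) = 2 ^ J := by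
      rw [show (4 : ℝ) = 2 ^ 2 by norm_num, ← pow_mul, mul_comm, pow_mul, ← Real.sqrt_eq_rpow,
        Real.sqrt_sq (by positivity)]
    have h1 : ((PP J).natDegree : ℝ) ≤ 2 * J * ((2 * J * (D * ((4 : ℝ) ^ J) ^ ε)) * 2 ^ J) := by
      have h2 : ((PP J).natDegree : ℝ) ≤ 2 * J * ((MM J).card * 2 ^ J) := by
        exact_mod_cast natDegree_PP_le J
      refine h2.trans ?_
      gcongr
      exact card_MM_le ε D hε0 hD1 hD J
    have h2 : 2 * J * ((2 * J * (D * ((4 : ℝ) ^ J) ^ ε)) * 2 ^ J) =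
        4 * D * (J : ℝ) ^ 2 * ((4 : ℝ) ^ J) ^ (ε + 1 / 2) := by
      rw [Real.rpow_add (by positivity), hhalf]; ring
    rw [h2] at h1
    set Y := ((4 : ℝ) ^ J) ^ (ε + 1 / 2) with hY
    have hY1 : 1 ≤ Y := Real.one_le_rpow h4 (by linarith)
    have h3 : 1 ≤ D * (J : ℝ) ^ 2 * Y := by
      have : (1 : ℝ) ≤ (J : ℝ) ^ 2 := one_le_pow₀ hJ1
      have h5 : 1 ≤ D * (J : ℝ) ^ 2 := one_le_mul_of_one_le_of_one_le hD1 this
      exact one_le_mul_of_one_le_of_one_le h5 hY1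
    push_cast
    have hc0 : (0 : ℝ) ≤ c := by positivity
    calc (c : ℝ) * (3 * (PP J).natDegree + 1) ≤
        c * (3 * (4 * D * (J : ℝ) ^ 2 * Y) + D * (J : ℝ) ^ 2 * Y) := by gcongr
      _ = 13 * c * D * (J : ℝ) ^ 2 * Y := by ring
  -- lower bound for the growth
  have hlow : ∀ J : ℕ, 4 ^ J ≤ rfGrowth S (c * (3 * (PP J).natDegree + 1)) := by
    intro J
    have hmem := lamp_short S c hd ht _ (PP J) le_rfl
    have hne : (⟨toLaurent (PP J), 0⟩ : Lamp) ≠ 1 := by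
      intro h
      have : toLaurent (PP J) = 0 := congrArg Lamp.f h
      exact PP_ne J (Polynomial.toLaurent_eq_zero.1 this)
    refine le_trans ?_ (depth_le_rf S hmem hne)
    apply le_depth (lamp_rf _ hne)
    intro N hN h0 hnot
    by_contra hlt
    exact hnot (PP_mem J N hN h0 (by omega))
  -- combine
  set Q : ℝ := C * (C * (13 * c * D)) ^ α with hQ
  have hmain : ∀ J : ℕ, 1 ≤ J → ((4 : ℝ) ^ δ) ^ J ≤ Q * (J : ℝ) ^ 4 := by
    intro J hJ
    have hJ1 : (1 : ℝ) ≤ J := by exact_mod_cast hJ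
    set Y := (4 : ℝ) ^ J with hY
    have hYpos : 0 < Y := by positivity
    have h1 := hC (c * (3 * (PP J).natDegree + 1))
    simp only at h1
    have h2 : Y ≤ (rfGrowth S (c * (3 * (PP J).natDegree + 1)) : ℝ) := by
      rw [hY]; exact_mod_cast hlow J
    have h3 : (((C * (c * (3 * (PP J).natDegree + 1)) : ℕ)) : ℝ) ≤
        C * (13 * c * D * (J : ℝ) ^ 2 * Y ^ (ε + 1 / 2)) := by
      have := hlen J hJ
      push_cast at this ⊢
      gcongr
    have h4 : Y ≤ C * (C * (13 * c * D * (J : ℝ) ^ 2 * Y ^ (ε + 1 / 2))) ^ α := by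
      refine (h2.trans h1).trans ?_
      gcongr
    have h5 : (C * (13 * c * D * (J : ℝ) ^ 2 * Y ^ (ε + 1 / 2))) ^ α =
        (C * (13 * c * D)) ^ α * ((J : ℝ) ^ 2) ^ α * Y ^ (1 - δ) := by
      rw [← hexp, mul_comm α, Real.rpow_mul hYpos.le, ← Real.mul_rpow (by positivity)
        (by positivity), ← Real.mul_rpow (by positivity) (by positivity)]
      congr 1
      ring
    have h6 : ((J : ℝ) ^ 2) ^ α ≤ (J : ℝ) ^ 4 := by
      have : ((J : ℝ) ^ 2) ^ α ≤ ((J : ℝ) ^ 2) ^ (2 : ℝ) :=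
        Real.rpow_le_rpow_of_exponent_le (one_le_pow₀ hJ1) hα.le
      refine this.trans (le_of_eq ?_)
      rw [Real.rpow_two]; ring
    have h7 : Y ≤ Q * (J : ℝ) ^ 4 * Y ^ (1 - δ) := by
      rw [h5] at h4
      refine h4.trans ?_
      rw [hQ]
      have : (C : ℝ) * ((C * (13 * c * D)) ^ α * ((J : ℝ) ^ 2) ^ α * Y ^ (1 - δ)) =
        (C * (C * (13 * c * D)) ^ α) * ((J : ℝ) ^ 2) ^ α * Y ^ (1 - δ) := by ring
      rw [this]
      gcongr
    have h8 : Y = Y ^ δ * Y ^ (1 - δ) := by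
      rw [← Real.rpow_add hYpos]; simp
    have h9 : Y ^ δ ≤ Q * (J : ℝ) ^ 4 := by
      have h10 : 0 < Y ^ (1 - δ) := by positivity
      rw [h8] at h7
      have h11 : Y ^ δ * Y ^ (1 - δ) ≤ Q * (J : ℝ) ^ 4 * Y ^ (1 - δ) := by
        calc _ = Y := h8.symm
          _ ≤ Q * (J : ℝ) ^ 4 * Y ^ (1 - δ) := by
            rw [← h8] at h7; exact h7
      exact le_of_mul_le_mul_right h11 h10
    have h12 : Y ^ δ = ((4 : ℝ) ^ δ) ^ J := by
      rw [hY, ← Real.rpow_natCast, ← Real.rpow_mul (by norm_num), mul_comm,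
        Real.rpow_mul (by norm_num), Real.rpow_natCast]
    rwa [h12] at h9
  have h4δ : (1 : ℝ) < 4 ^ δ := Real.one_lt_rpow (by norm_num) hδ0
  have hQ0 : 0 < Q + 1 := by rw [hQ]; positivity
  have hlim := tendsto_pow_const_div_const_pow_of_one_lt 4 h4δ
  have hev := hlim.eventually_lt_const (show (0 : ℝ) < 1 / (Q + 1) by positivity)
  obtain ⟨J, hJ, hJ1⟩ := (hev.and (eventually_ge_atTop 1)).exists
  have h1 := hmain J hJ1
  rw [div_lt_div_iff₀ (by positivity) hQ0] at hJ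
  have hJ1' : (1 : ℝ) ≤ J := by exact_mod_cast hJ1
  have : (0 : ℝ) < (J : ℝ) ^ 4 := by positivity
  nlinarith

end

end Pool.Agent.Lib.MP_f3c5e4_al
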